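import Mathlib

/-!
# A continuous scaling function with rational quadrature mirror filter coefficients

The filter is `(3/5, 6/5, 2/5, -1/5)`.  The cascade algorithm started from the hat function
converges uniformly; the limit `phi0` is continuous, vanishes outside `(0, 3)`, satisfies
`phi0 t = 3/5 phi0 (2t) + 6/5 phi0 (2t-1) + 2/5 phi0 (2t-2) - 1/5 phi0 (2t-3)`
and its integer shifts sum to `1`.
-/

open Filter Topology

namespace Pool.Agent.TH311.Rioul

/-- the cascade operator -/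
noncomputable def K (f : ℝ → ℝ) (t : ℝ) : ℝ :=
  3/5 * f (2*t) + 6/5 * f (2*t - 1) + 2/5 * f (2*t - 2) - 1/5 * f (2*t - 3)

/-- the cascade iterates, started from the hat function -/
noncomputable def casc : ℕ → ℝ → ℝ
  | 0 => fun t => max 0 (1 - |t - 1|)
  | n + 1 => K (casc n)

/-- vanishing outside `(0, 3)` -/
def Supp3 (f : ℝ → ℝ) : Prop := ∀ t, t ≤ 0 ∨ 3 ≤ t → f t = 0

/-- the three relevant shifts sum to `c` -/
def SumC (c : ℝ) (f : ℝ → ℝ) : Prop := ∀ t, 0 ≤ t → t ≤ 1 → f t + f (t+1) + f (t+2) = c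

lemma K_supp {f : ℝ → ℝ} (h : Supp3 f) : Supp3 (K f) := by
  intro t ht
  unfold K
  rcases ht with ht | ht
  · rw [h (2*t) (Or.inl (by linarith)), h (2*t-1) (Or.inl (by linarith)),
      h (2*t-2) (Or.inl (by linarith)), h (2*t-3) (Or.inl (by linarith))]
    ring
  · rw [h (2*t) (Or.inr (by linarith)), h (2*t-1) (Or.inr (by linarith)),
      h (2*t-2) (Or.inr (by linarith)), h (2*t-3) (Or.inr (by linarith))]
    ring

/-- the values of `K f` on `[0, 1/2]` -/
lemma K_a {f : ℝ → ℝ} (h : Supp3 f) {s : ℝ} (h1 : s ≤ 1) :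
    K f (s/2) = 3/5 * f s := by
  unfold K
  rw [h (2*(s/2)-1) (Or.inl (by linarith)), h (2*(s/2)-2) (Or.inl (by linarith)),
    h (2*(s/2)-3) (Or.inl (by linarith))]
  ring_nf

/-- the values of `K f` on `[1/2, 1]` -/
lemma K_b {f : ℝ → ℝ} (h : Supp3 f) {s : ℝ} (h1 : s ≤ 1) :
    K f ((s+1)/2) = 3/5 * f (s+1) + 6/5 * f s := by
  unfold K
  rw [h (2*((s+1)/2)-2) (Or.inl (by linarith)), h (2*((s+1)/2)-3) (Or.inl (by linarith)),
    show 2*((s+1)/2) = s+1 by ring, show s + 1 - 1 = s by ring]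
  ring

/-- the values of `K f` on `[1, 3/2]` -/
lemma K_c {f : ℝ → ℝ} (h : Supp3 f) {s : ℝ} (h1 : s ≤ 1) :
    K f (s/2+1) = 3/5 * f (s+2) + 6/5 * f (s+1) + 2/5 * f s := by
  unfold K
  rw [h (2*(s/2+1)-3) (Or.inl (by linarith)),
    show 2*(s/2+1) = s+2 by ring, show s + 2 - 1 = s + 1 by ring, show s + 2 - 2 = s by ring]
  ring

/-- the values of `K f` on `[3/2, 2]` -/
lemma K_d {f : ℝ → ℝ} (h : Supp3 f) {s : ℝ} (h0 : 0 ≤ s) :
    K f ((s+1)/2+1) = 6/5 * f (s+2) + 2/5 * f (s+1) - 1/5 * f s := by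
  unfold K
  rw [h (2*((s+1)/2+1)) (Or.inr (by linarith)),
    show 2*((s+1)/2+1) - 1 = s+2 by ring, show 2*((s+1)/2+1) - 2 = s + 1 by ring,
    show 2*((s+1)/2+1) - 3 = s by ring]
  ring

/-- the values of `K f` on `[2, 5/2]` -/
lemma K_e {f : ℝ → ℝ} (h : Supp3 f) {s : ℝ} (h0 : 0 ≤ s) :
    K f (s/2+2) = 2/5 * f (s+2) - 1/5 * f (s+1) := by
  unfold K
  rw [h (2*(s/2+2)) (Or.inr (by linarith)), h (2*(s/2+2)-1) (Or.inr (by linarith)),
    show 2*(s/2+2) - 2 = s+2 by ring, show 2*(s/2+2) - 3 = s + 1 by ring]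
  ring

/-- the values of `K f` on `[5/2, 3]` -/
lemma K_f {f : ℝ → ℝ} (h : Supp3 f) {s : ℝ} (h0 : 0 ≤ s) :
    K f ((s+1)/2+2) = - 1/5 * f (s+2) := by
  unfold K
  rw [h (2*((s+1)/2+2)) (Or.inr (by linarith)), h (2*((s+1)/2+2)-1) (Or.inr (by linarith)),
    h (2*((s+1)/2+2)-2) (Or.inr (by linarith)),
    show 2*((s+1)/2+2) - 3 = s + 2 by ring]
  ring

/-- halves: every `t ∈ [0,1]` is `s/2` or `(s+1)/2` with `s ∈ [0,1]` -/
lemma halves {t : ℝ} (h0 : 0 ≤ t) (h1 : t ≤ 1) :
    ∃ s : ℝ, 0 ≤ s ∧ s ≤ 1 ∧ (t = s/2 ∨ t = (s+1)/2) := by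
  rcases le_total t (1/2) with h | h
  · exact ⟨2*t, by linarith, by linarith, Or.inl (by ring)⟩
  · exact ⟨2*t-1, by linarith, by linarith, Or.inr (by ring)⟩

lemma K_sum {f : ℝ → ℝ} {c : ℝ} (h : Supp3 f) (hs : SumC c f) : SumC c (K f) := by
  intro t h0 h1
  obtain ⟨s, s0, s1, rfl | rfl⟩ := halves h0 h1
  · rw [K_a h s1, K_c h s1, K_e h s0]
    have := hs s s0 s1
    linarith
  · rw [K_b h s1, K_d h s0, K_f h s0]
    have := hs s s0 s1
    linarith

lemma casc_supp (n : ℕ) : Supp3 (casc n) := by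
  induction n with
  | zero =>
    intro t ht
    show max 0 (1 - |t - 1|) = 0
    apply max_eq_left
    rcases ht with ht | ht
    · rw [abs_of_nonpos (by linarith)]; linarith
    · rw [abs_of_nonneg (by linarith)]; linarith
  | succ n ih => exact K_supp ih

lemma casc_sum (n : ℕ) : SumC 1 (casc n) := by
  induction n with
  | zero =>
    intro t h0 h1
    show max 0 (1 - |t - 1|) + max 0 (1 - |t + 1 - 1|) + max 0 (1 - |t + 2 - 1|) = 1
    rw [abs_of_nonpos (by linarith : t - 1 ≤ 0), abs_of_nonneg (by linarith : 0 ≤ t + 1 - 1),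
      abs_of_nonneg (by linarith : 0 ≤ t + 2 - 1), max_eq_right (by linarith),
      max_eq_right (by linarith), max_eq_left (by linarith)]
    ring
  | succ n ih => exact K_sum (casc_supp n) ih

lemma casc_continuous (n : ℕ) : Continuous (casc n) := by
  induction n with
  | zero =>
    show Continuous fun t : ℝ => max 0 (1 - |t - 1|)
    fun_prop
  | succ n ih =>
    show Continuous fun t : ℝ => 3/5 * casc n (2*t) + 6/5 * casc n (2*t - 1) +
      2/5 * casc n (2*t - 2) - 1/5 * casc n (2*t - 3)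
    fun_prop

/-- the difference of two consecutive iterates -/
noncomputable def dif (n : ℕ) (t : ℝ) : ℝ := casc (n+1) t - casc n t

lemma dif_supp (n : ℕ) : Supp3 (dif n) := by
  intro t ht
  show casc (n+1) t - casc n t = 0
  rw [casc_supp _ t ht, casc_supp _ t ht, sub_zero]

lemma dif_sum (n : ℕ) : SumC 0 (dif n) := by
  intro t h0 h1
  have a := casc_sum (n+1) t h0 h1
  have b := casc_sum n t h0 h1
  unfold dif
  linarith

lemma dif_succ (n : ℕ) : dif (n+1) = K (dif n) := by
  funext t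
  unfold dif
  show K (casc (n+1)) t - K (casc n) t = _
  unfold K
  ring

/-- a bound of the hat function and its first cascade iterate -/
lemma casc0_bound (t : ℝ) : |casc 0 t| ≤ 1 := by
  show |max 0 (1 - |t - 1|)| ≤ 1
  rw [abs_of_nonneg (le_max_left _ _)]
  exact max_le zero_le_one (by linarith [abs_nonneg (t-1)])

lemma dif0_bound (t : ℝ) : |dif 0 t| ≤ 4 := by
  have h1 := abs_le.1 (casc0_bound (2*t))
  have h2 := abs_le.1 (casc0_bound (2*t-1))
  have h3 := abs_le.1 (casc0_bound (2*t-2))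
  have h4 := abs_le.1 (casc0_bound (2*t-3))
  have h5 := abs_le.1 (casc0_bound t)
  have : dif 0 t = 3/5 * casc 0 (2*t) + 6/5 * casc 0 (2*t - 1) + 2/5 * casc 0 (2*t - 2)
      - 1/5 * casc 0 (2*t - 3) - casc 0 t := rfl
  rw [this, abs_le]
  constructor <;> linarith [h1.1, h1.2, h2.1, h2.2, h3.1, h3.2, h4.1, h4.2, h5.1, h5.2]

/-- the contraction estimate in the weighted norm -/
lemma dif_est (n : ℕ) : ∀ s : ℝ, 0 ≤ s → s ≤ 1 →
    |dif n s| ≤ 7 * (19/20 : ℝ)^n ∧ |dif n (s+2)| ≤ 4 * (19/20 : ℝ)^n := by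
  induction n with
  | zero =>
    intro s _ _
    refine ⟨(dif0_bound s).trans (by norm_num), (dif0_bound (s+2)).trans (by norm_num)⟩
  | succ n ih =>
    intro t h0 h1
    have hρ : (0:ℝ) ≤ (19/20 : ℝ)^n := by positivity
    rw [dif_succ, pow_succ]
    obtain ⟨s, s0, s1, rfl | rfl⟩ := halves h0 h1
    · rw [K_a (dif_supp n) s1, K_e (dif_supp n) s0]
      obtain ⟨a, b⟩ := ih s s0 s1
      have hs := dif_sum n s s0 s1
      rw [abs_le] at a b
      have e : dif n (s+1) = - dif n s - dif n (s+2) := by linarith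
      rw [e]
      constructor
      · rw [abs_le]; constructor <;> nlinarith [a.1, a.2]
      · rw [abs_le]; constructor <;> nlinarith [a.1, a.2, b.1, b.2]
    · rw [K_b (dif_supp n) s1, K_f (dif_supp n) s0]
      obtain ⟨a, b⟩ := ih s s0 s1
      have hs := dif_sum n s s0 s1
      rw [abs_le] at a b
      have e : dif n (s+1) = - dif n s - dif n (s+2) := by linarith
      rw [e]
      constructor
      · rw [abs_le]; constructor <;> nlinarith [a.1, a.2, b.1, b.2]
      · rw [abs_le]; constructor <;> nlinarith [a.1, a.2, b.1, b.2]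

lemma dif_bound (n : ℕ) (t : ℝ) : |dif n t| ≤ 11 * (19/20 : ℝ)^n := by
  have hρ : (0:ℝ) ≤ (19/20 : ℝ)^n := by positivity
  rcases le_or_gt t 0 with h | h
  · rw [dif_supp n t (Or.inl h), abs_zero]; positivity
  rcases le_or_gt t 1 with h1 | h1
  · exact ((dif_est n t h.le h1).1).trans (by nlinarith)
  rcases le_or_gt t 2 with h2 | h2
  · obtain ⟨a, b⟩ := dif_est n (t-1) (by linarith) (by linarith)
    have hs := dif_sum n (t-1) (by linarith) (by linarith)
    rw [show t - 1 + 1 = t by ring] at hs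
    rw [abs_le] at a b ⊢
    constructor <;> linarith [a.1, a.2, b.1, b.2]
  rcases le_or_gt t 3 with h3 | h3
  · have := (dif_est n (t-2) (by linarith) (by linarith)).2
    rw [show t - 2 + 2 = t by ring] at this
    exact this.trans (by nlinarith)
  · rw [dif_supp n t (Or.inr h3.le), abs_zero]; positivity

lemma dif_continuous (n : ℕ) : Continuous (dif n) :=
  (casc_continuous (n+1)).sub (casc_continuous n)

lemma summable_bound : Summable fun n : ℕ => 11 * (19/20 : ℝ)^n :=
  (summable_geometric_of_lt_one (by norm_num) (by norm_num)).mul_left _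

/-- the scaling function -/
noncomputable def phi0 (t : ℝ) : ℝ := casc 0 t + ∑' n, dif n t

lemma phi0_continuous : Continuous phi0 :=
  (casc_continuous 0).add (continuous_tsum dif_continuous summable_bound
    (fun n t => by rw [Real.norm_eq_abs]; exact dif_bound n t))

lemma summable_dif (t : ℝ) : Summable fun n => dif n t :=
  Summable.of_norm_bounded summable_bound
    (fun n => by rw [Real.norm_eq_abs]; exact dif_bound n t)

lemma casc_tendsto (t : ℝ) : Tendsto (fun n => casc n t) atTop (𝓝 (phi0 t)) := by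
  have h := (summable_dif t).hasSum.tendsto_sum_nat
  have h2 : Tendsto (fun n => casc 0 t + ∑ i ∈ Finset.range n, dif i t) atTop
      (𝓝 (phi0 t)) := h.const_add _
  refine h2.congr (fun n => ?_)
  have : ∑ i ∈ Finset.range n, dif i t = casc n t - casc 0 t :=
    Finset.sum_range_sub (fun i => casc i t) n
  rw [this]; ring

lemma phi0_refine (t : ℝ) : phi0 t = K phi0 t := by
  have h1 : Tendsto (fun n => casc (n+1) t) atTop (𝓝 (phi0 t)) :=
    (casc_tendsto t).comp (tendsto_add_atTop_nat 1)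
  have h2 : Tendsto (fun n => K (casc n) t) atTop (𝓝 (K phi0 t)) := by
    unfold K
    exact ((((casc_tendsto _).const_mul _).add ((casc_tendsto _).const_mul _)).add
      ((casc_tendsto _).const_mul _)).sub ((casc_tendsto _).const_mul _)
  exact tendsto_nhds_unique h1 h2

lemma phi0_supp : Supp3 phi0 := by
  intro t ht
  refine tendsto_nhds_unique (casc_tendsto t) ?_
  simp_rw [fun n => casc_supp n t ht]
  exact tendsto_const_nhds

lemma phi0_sum : SumC 1 phi0 := by
  intro t h0 h1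
  refine tendsto_nhds_unique (((casc_tendsto t).add (casc_tendsto (t+1))).add
    (casc_tendsto (t+2))) ?_
  simp_rw [fun n => casc_sum n t h0 h1]
  exact tendsto_const_nhds

/-- the integer shifts of `phi0` sum to `1` -/
lemma phi0_hasSum (x : ℝ) : HasSum (fun m : ℤ => phi0 (x + m)) 1 := by
  have hfl : x = Int.fract x + ⌊x⌋ := (Int.fract_add_floor x).symm
  set y := Int.fract x with hy
  have hy0 : 0 ≤ y := Int.fract_nonneg x
  have hy1 : y < 1 := Int.fract_lt_one x
  set z : ℤ := ⌊x⌋ with hz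
  have key : HasSum (fun m : ℤ => phi0 (x + m)) (∑ m ∈ ({-z, 1-z, 2-z} : Finset ℤ), phi0 (x + m)) := by
    refine hasSum_sum_of_ne_finset_zero (fun m hm => ?_)
    apply phi0_supp
    have : x + m = y + ((z + m : ℤ) : ℝ) := by rw [hfl]; push_cast; ring
    rw [this]
    rcases lt_trichotomy (z+m) 0 with h | h | h
    · left
      have : ((z + m : ℤ) : ℝ) ≤ -1 := by exact_mod_cast Int.le_sub_one_of_lt h
      linarith
    · exfalso; apply hm; simp; left; linarith
    · by_cases h3 : 3 ≤ z + m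
      · right
        have : (3:ℝ) ≤ ((z + m : ℤ) : ℝ) := by exact_mod_cast h3
        linarith
      · exfalso; apply hm; simp; omega
  have e : ∑ m ∈ ({-z, 1-z, 2-z} : Finset ℤ), phi0 (x + m) = 1 := by
    rw [Finset.sum_insert (by simp; omega), Finset.sum_insert (by simp),
      Finset.sum_singleton]
    have h := phi0_sum y hy0 hy1.le
    have e1 : x + ((-z : ℤ) : ℝ) = y := by rw [hfl]; push_cast; ring
    have e2 : x + ((1-z : ℤ) : ℝ) = y + 1 := by rw [hfl]; push_cast; ring
    have e3 : x + ((2-z : ℤ) : ℝ) = y + 2 := by rw [hfl]; push_cast; ring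
    rw [e1, e2, e3]
    linarith
  rwa [e] at key

end Pool.Agent.TH311.Rioul
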