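import Pool.Agent.TH311.Rioul.Scaling

/-!
# Zak transform, dilation equations, and the stretched scaling function
-/

open Filter Topology Complex

namespace Pool.Agent.TH311.Rioul

/-- The Zak transform `Zf(t, ξ) = ∑ₖ f(t + k) exp(2π i k ξ)`. -/
noncomputable def zak (f : ℝ → ℂ) (t ξ : ℝ) : ℂ :=
  ∑' k : ℤ, f (t + k) * exp (2 * (Real.pi : ℂ) * I * k * ξ)

/-- The symbol `D(ξ) = ∑ₖ dₖ exp(2π i k ξ)` of finitely many coefficients. -/
noncomputable def symbol (d : ℤ →₀ ℂ) (ξ : ℝ) : ℂ :=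
  d.sum fun k c => c * exp (2 * (Real.pi : ℂ) * I * k * ξ)

/-- The dilation equation `φ(t/2) = ∑ₖ dₖ φ(t - k)` for all real `t`. -/
def Dilation (φ : ℝ → ℂ) (d : ℤ →₀ ℂ) : Prop :=
  ∀ t : ℝ, φ (t / 2) = d.sum fun k c => c * φ (t - k)

/-- `D` has a pair of symmetric zeros. -/
def SymmetricZeros (d : ℤ →₀ ℂ) : Prop :=
  ∃ ξ : ℝ, 0 ≤ ξ ∧ ξ < 1 ∧ symbol d ξ = 0 ∧ symbol d (ξ + 1/2) = 0

/-- the stretched scaling function -/
noncomputable def phi (t : ℝ) : ℂ := (phi0 (t / 3) : ℂ)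

/-- the stretched filter -/
noncomputable def d3 : ℤ →₀ ℂ :=
  Finsupp.single 0 (3/5) + Finsupp.single 3 (6/5) + Finsupp.single 6 (2/5) +
    Finsupp.single 9 (-1/5)

lemma d3_sum (F : ℤ → ℂ) : (d3.sum fun k c => c * F k) =
    3/5 * F 0 + 6/5 * F 3 + 2/5 * F 6 + -1/5 * F 9 := by
  unfold d3
  have h0 : ∀ a : ℤ, (0:ℂ) * F a = 0 := fun a => zero_mul _
  have hadd : ∀ (a : ℤ) (b₁ b₂ : ℂ), (b₁ + b₂) * F a = b₁ * F a + b₂ * F a :=
    fun a b₁ b₂ => add_mul _ _ _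
  rw [Finsupp.sum_add_index' h0 hadd, Finsupp.sum_add_index' h0 hadd,
    Finsupp.sum_add_index' h0 hadd, Finsupp.sum_single_index (h0 _),
    Finsupp.sum_single_index (h0 _), Finsupp.sum_single_index (h0 _),
    Finsupp.sum_single_index (h0 _)]

lemma phi_continuous : Continuous phi :=
  Complex.continuous_ofReal.comp (phi0_continuous.comp (continuous_id.div_const 3))

lemma phi_compact : HasCompactSupport phi := by
  apply HasCompactSupport.intro (isCompact_Icc (a := (0:ℝ)) (b := 9))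
  intro t ht
  have : t < 0 ∨ 9 < t := by
    by_contra h
    push Not at h
    exact ht ⟨h.1, h.2⟩
  unfold phi
  rw [phi0_supp (t/3) (by rcases this with h | h; left; linarith; right; linarith)]
  simp

lemma phi_dilation : Dilation phi d3 := by
  intro t
  rw [d3_sum (fun k => phi (t - k))]
  unfold phi
  rw [phi0_refine (t/2/3)]
  unfold K
  have e0 : (t - ((0:ℤ):ℝ))/3 = 2*(t/2/3) := by push_cast; ring
  have e1 : (t - ((3:ℤ):ℝ))/3 = 2*(t/2/3) - 1 := by push_cast; ring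
  have e2 : (t - ((6:ℤ):ℝ))/3 = 2*(t/2/3) - 2 := by push_cast; ring
  have e3 : (t - ((9:ℤ):ℝ))/3 = 2*(t/2/3) - 3 := by push_cast; ring
  rw [e0, e1, e2, e3]
  push_cast
  ring

lemma phi_ne_zero : phi ≠ 0 := by
  intro h
  have h1 := (phi0_sum 0 le_rfl zero_le_one)
  have h2 : ∀ x : ℝ, phi0 x = 0 := by
    intro x
    have := congrFun h (x * 3)
    unfold phi at this
    rw [mul_div_cancel_right₀ _ (by norm_num : (3:ℝ) ≠ 0)] at this
    exact Complex.ofReal_eq_zero.1 this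
  rw [h2, h2, h2] at h1
  norm_num at h1

/-- with `w = exp(6 π i ξ)` the symbol is `(3 + 6 w + 2 w² - w³)/5` -/
lemma symbol_d3 (ξ : ℝ) : symbol d3 ξ =
    3/5 + 6/5 * exp (6 * (Real.pi : ℂ) * I * ξ) + 2/5 * exp (6 * (Real.pi : ℂ) * I * ξ) ^ 2
      - 1/5 * exp (6 * (Real.pi : ℂ) * I * ξ) ^ 3 := by
  unfold symbol
  rw [d3_sum (fun k => exp (2 * (Real.pi : ℂ) * I * k * ξ)), ← Complex.exp_nat_mul,
    ← Complex.exp_nat_mul]
  have e0 : exp (2 * (Real.pi : ℂ) * I * ((0:ℤ):ℂ) * ξ) = 1 := by simp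
  have e1 : 2 * (Real.pi : ℂ) * I * ((3:ℤ):ℂ) * ξ = 6 * (Real.pi : ℂ) * I * ξ := by
    push_cast; ring
  have e2 : 2 * (Real.pi : ℂ) * I * ((6:ℤ):ℂ) * ξ = ((2:ℕ):ℂ) * (6 * (Real.pi : ℂ) * I * ξ) := by
    push_cast; ring
  have e3 : 2 * (Real.pi : ℂ) * I * ((9:ℤ):ℂ) * ξ = ((3:ℕ):ℂ) * (6 * (Real.pi : ℂ) * I * ξ) := by
    push_cast; ring
  rw [e0, e1, e2, e3]
  ring

lemma exp_half (ξ : ℝ) : exp (6 * (Real.pi : ℂ) * I * ((ξ + 1/2 : ℝ) : ℂ)) =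
    - exp (6 * (Real.pi : ℂ) * I * ξ) := by
  have : 6 * (Real.pi : ℂ) * I * ((ξ + 1/2 : ℝ) : ℂ) =
      6 * (Real.pi : ℂ) * I * ξ + (Real.pi : ℂ) * I + 2 * (Real.pi : ℂ) * I := by
    push_cast; ring
  rw [this, Complex.exp_add, Complex.exp_add, Complex.exp_pi_mul_I, Complex.exp_two_pi_mul_I]
  ring

lemma norm_w (ξ : ℝ) : normSq (exp (6 * (Real.pi : ℂ) * I * ξ)) = 1 := by
  have : 6 * (Real.pi : ℂ) * I * ξ = ((6 * Real.pi * ξ : ℝ) : ℂ) * I := by push_cast; ring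
  rw [this, Complex.normSq_eq_norm_sq, Complex.norm_exp_ofReal_mul_I, one_pow]

/-- the quadrature mirror filter identity -/
lemma qmf (ξ : ℝ) : ‖symbol d3 ξ‖ ^ 2 + ‖symbol d3 (ξ + 1/2)‖ ^ 2 = 4 := by
  rw [symbol_d3, symbol_d3, exp_half]
  have hw := norm_w ξ
  set w := exp (6 * (Real.pi : ℂ) * I * ξ)
  have h : w * (starRingEnd ℂ) w = 1 := by
    rw [Complex.mul_conj, hw, Complex.ofReal_one]
  set v := (starRingEnd ℂ) w with hv
  have key : (((‖3/5 + 6/5 * w + 2/5 * w ^ 2 - 1/5 * w ^ 3‖ ^ 2 +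
      ‖3/5 + 6/5 * (-w) + 2/5 * (-w) ^ 2 - 1/5 * (-w) ^ 3‖ ^ 2 : ℝ)) : ℂ) = ((4:ℝ):ℂ) := by
    rw [Complex.ofReal_add, ← Complex.normSq_eq_norm_sq, ← Complex.normSq_eq_norm_sq,
      ← Complex.mul_conj, ← Complex.mul_conj]
    simp only [map_add, map_sub, map_mul, map_pow, map_neg, map_div₀, map_ofNat, map_one]
    rw [← hv]
    push_cast
    linear_combination (2/25 * (36 + 4 * (w*v+1) + ((w*v)^2 + w*v + 1) - 6 * v^2 - 6 * w^2)) * h
  exact_mod_cast key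

lemma symbol_zero : symbol d3 0 = 2 := by
  rw [symbol_d3]
  simp
  norm_num

lemma no_symmetric : ¬ SymmetricZeros d3 := by
  rintro ⟨ξ, -, -, h1, h2⟩
  have := qmf ξ
  rw [h1, h2] at this
  norm_num at this

/-- The primitive cube root of unity. -/
lemma cube : exp (2 * (Real.pi : ℂ) * I * ((1/3 : ℝ) : ℂ)) ^ 3 = 1 := by
  rw [← Complex.exp_nat_mul]
  have : ((3:ℕ):ℂ) * (2 * (Real.pi : ℂ) * I * ((1/3 : ℝ) : ℂ)) = 2 * (Real.pi : ℂ) * I := by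
    push_cast; ring
  rw [this, Complex.exp_two_pi_mul_I]

lemma cube_ne : exp (2 * (Real.pi : ℂ) * I * ((1/3 : ℝ) : ℂ)) ≠ 1 := by
  intro h
  have h2 : 2 * (Real.pi : ℂ) * I * ((1/3 : ℝ) : ℂ) = ((2 * Real.pi / 3 : ℝ) : ℂ) * I := by
    push_cast; ring
  rw [h2] at h
  have h3 := congrArg Complex.im h
  rw [Complex.exp_ofReal_mul_I_im, Complex.one_im] at h3
  have : 0 < Real.sin (2 * Real.pi / 3) :=
    Real.sin_pos_of_pos_of_lt_pi (by positivity) (by linarith [Real.pi_pos])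
  linarith

lemma cube_sum : 1 + exp (2 * (Real.pi : ℂ) * I * ((1/3 : ℝ) : ℂ)) +
    exp (2 * (Real.pi : ℂ) * I * ((1/3 : ℝ) : ℂ)) ^ 2 = 0 := by
  have h1 := cube
  have h2 := cube_ne
  set w := exp (2 * (Real.pi : ℂ) * I * ((1/3 : ℝ) : ℂ))
  have : (w - 1) * (1 + w + w^2) = 0 := by ring_nf; rw [h1]; ring
  rcases mul_eq_zero.1 this with h | h
  · exact absurd (sub_eq_zero.1 h) h2
  · exact h

/-- one residue class modulo 3 -/
lemma class_hasSum (t : ℝ) (r : ℤ) :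
    HasSum (fun m : ℤ => phi (t + ((3*m + r : ℤ) : ℝ)) *
      exp (2 * (Real.pi : ℂ) * I * ((3*m + r : ℤ) : ℂ) * ((1/3 : ℝ) : ℂ)))
      (exp (2 * (Real.pi : ℂ) * I * (r : ℂ) * ((1/3 : ℝ) : ℂ))) := by
  have h := phi0_hasSum ((t + r)/3)
  have h2 : HasSum (fun m : ℤ => ((phi0 ((t + r)/3 + m) : ℝ) : ℂ)) ((1:ℝ):ℂ) :=
    (Complex.hasSum_ofReal).2 h
  have h3 := h2.mul_right (exp (2 * (Real.pi : ℂ) * I * (r : ℂ) * ((1/3 : ℝ) : ℂ)))
  rw [Complex.ofReal_one, one_mul] at h3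
  refine h3.congr_fun (fun m => ?_)
  unfold phi
  have e1 : (t + ((3*m + r : ℤ) : ℝ))/3 = (t + r)/3 + m := by push_cast; ring
  have e2 : 2 * (Real.pi : ℂ) * I * ((3*m + r : ℤ) : ℂ) * ((1/3 : ℝ) : ℂ) =
      2 * (Real.pi : ℂ) * I * (r : ℂ) * ((1/3 : ℝ) : ℂ) + m * (2 * (Real.pi : ℂ) * I) := by
    push_cast; ring
  rw [e1, e2, Complex.exp_add, Complex.exp_int_mul_two_pi_mul_I, mul_one]

/-- the terms of the Zak transform of `phi` at `ξ = 1/3` -/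
noncomputable def term (t : ℝ) (k : ℤ) : ℂ :=
  phi (t + k) * exp (2 * (Real.pi : ℂ) * I * k * ((1/3 : ℝ) : ℂ))

lemma term_summable (t : ℝ) : Summable (term t) := by
  apply summable_of_ne_finset_zero (s := Finset.Icc (-⌈t⌉) (9 - ⌊t⌋))
  intro k hk
  rw [Finset.mem_Icc, not_and_or] at hk
  unfold term
  have : phi (t + k) = 0 := by
    unfold phi
    rw [phi0_supp]
    · simp
    · rcases hk with h | h
      · left
        push Not at h
        have h1 : k + ⌈t⌉ ≤ 0 := by linarith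
        have h2 : t ≤ (⌈t⌉ : ℝ) := Int.le_ceil t
        have h3 : ((k + ⌈t⌉ : ℤ) : ℝ) ≤ 0 := by exact_mod_cast h1
        push_cast at h3
        linarith
      · right
        push Not at h
        have h1 : 9 ≤ k + ⌊t⌋ := by linarith
        have h2 : (⌊t⌋ : ℝ) ≤ t := Int.floor_le t
        have h3 : (9:ℝ) ≤ ((k + ⌊t⌋ : ℤ) : ℝ) := by exact_mod_cast h1
        push_cast at h3
        linarith
  rw [this, zero_mul]

/-- The Zak transform of `phi` vanishes on the whole line `ξ = 1/3`. -/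
lemma zak_phi (t : ℝ) : zak phi t (1/3) = 0 := by
  have h0 : HasSum (term t) (zak phi t (1/3)) := (term_summable t).hasSum
  have h1 : HasSum (term t ∘ (Int.divModEquiv 3).symm) (zak phi t (1/3)) :=
    ((Int.divModEquiv 3).symm.hasSum_iff).2 h0
  have h2 : HasSum (fun m : ℤ => ∑ r : Fin 3, (term t ∘ (Int.divModEquiv 3).symm) (m, r))
      (zak phi t (1/3)) := h1.prod_fiberwise (fun m => hasSum_fintype _)
  have h3 : HasSum (fun m : ℤ => ∑ r : Fin 3, (term t ∘ (Int.divModEquiv 3).symm) (m, r))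
      (∑ r : Fin 3, exp (2 * (Real.pi : ℂ) * I * ((r : ℤ) : ℂ) * ((1/3 : ℝ) : ℂ))) := by
    refine hasSum_sum (fun r _ => ?_)
    have h := class_hasSum t (r : ℤ)
    refine h.congr_fun (fun m => ?_)
    show term t ((Int.divModEquiv 3).symm (m, r)) = _
    rw [Int.divModEquiv_symm_apply]
    have : (m * ((3:ℕ):ℤ) + ((r:ℕ):ℤ) : ℤ) = 3 * m + ((r:ℕ):ℤ) := by push_cast; ring
    simp only [this]
    rfl
  rw [h2.unique h3, Fin.sum_univ_three]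
  have hc := cube_sum
  have e0 : exp (2 * (Real.pi : ℂ) * I * ((((0 : Fin 3) : ℕ) : ℤ) : ℂ) * ((1/3 : ℝ) : ℂ)) = 1 := by
    simp
  have e1 : 2 * (Real.pi : ℂ) * I * ((((1 : Fin 3) : ℕ) : ℤ) : ℂ) * ((1/3 : ℝ) : ℂ) =
      2 * (Real.pi : ℂ) * I * ((1/3 : ℝ) : ℂ) := by
    simp
  have e2 : 2 * (Real.pi : ℂ) * I * ((((2 : Fin 3) : ℕ) : ℤ) : ℂ) * ((1/3 : ℝ) : ℂ) =
      ((2:ℕ):ℂ) * (2 * (Real.pi : ℂ) * I * ((1/3 : ℝ) : ℂ)) := by
    simp; ring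
  rw [e0, e1, e2, Complex.exp_nat_mul]
  exact hc

end Pool.Agent.TH311.Rioul
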